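import Pool.Agent.RAG.Main

/-!
# Chains of primes of all lengths under maps `T q = 2q + 1 + O(q^t)`, `t > 1/2`, which agree with `2q + 1` modulo every fixed `d` for large `q`

`T q = 2q + 1 + M q ⌊(2^((t-1)m) u q + 2^(tm) v + g q)/M q⌋` for `2^m ≤ q < 2^(m+1)`, where `(u, v)` are two random numbers for each `m`. Almost surely the number of the primes `p ≤ X` which start a chain of exact length `k` is (1) asymptotic to
`C_k X/(log X)^k` for every `k`, with the Bateman-Horn constant `C_k` of the Cunningham chains of length `k`, (2) equal to `X/(log X)^((1+o(1)) k)` uniformly for all `k ≤ (1-ε) log X/log log X`, and (3) for `k > (1+ε) log X/log log X` there is no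
`p ≤ X` for which the first `k` members of the chain are primes.
-/

namespace Pool.Agent.Results.MP_77cbc6_nt.LongestPowerPerturbation

open MeasureTheory Filter Topology

/-- The map; `(u, v) = ω m` are the parameters for `2^m ≤ q < 2^(m+1)` (`m = Nat.log 2 q`). -/
noncomputable def T (M : ℕ → ℕ) (t : ℝ) (g : ℕ → ℝ) (ω : ℕ → ℝ × ℝ) (q : ℕ) : ℕ :=
  2 * q + 1 + M q * ⌊((2 : ℝ) ^ ((t - 1) * (Nat.log 2 q : ℝ)) * (ω (Nat.log 2 q)).1 * q +
    (2 : ℝ) ^ (t * (Nat.log 2 q : ℝ)) * (ω (Nat.log 2 q)).2 + g q) / M q⌋₊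

/-- `p` starts a chain of exact length `k` under the map `T`: the first `k` terms of the sequence
`p, T p, T (T p), ...` are primes and the next one is composite. -/
def StartsExact (T : ℕ → ℕ) (p k : ℕ) : Prop :=
  (∀ i < k, (T^[i] p).Prime) ∧ 1 < T^[k] p ∧ ¬ (T^[k] p).Prime

open Classical in
/-- The number of the `p ≤ X` which start a chain of exact length `k` under the map `T`. -/
noncomputable def count (T : ℕ → ℕ) (k X : ℕ) : ℕ :=
  ((Finset.Icc 1 X).filter fun p => StartsExact T p k).card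

open Classical in
/-- The number of the residues `v` modulo `ℓ` such that `ℓ` divides one of the numbers `2^i (v+1) - 1`, `i < k`. -/
noncomputable def nu (ℓ k : ℕ) : ℕ :=
  ((Finset.range ℓ).filter fun v => ∃ i < k, ℓ ∣ 2 ^ i * (v + 1) - 1).card

/-- The part of the Bateman-Horn product of the Cunningham chains of length `k` over the primes `≤ j`. -/
noncomputable def bhProd (k j : ℕ) : ℝ :=
  ∏ ℓ ∈ (Finset.range (j + 1)).filter Nat.Prime,
    (1 - (nu ℓ k : ℝ) / ℓ) / (1 - 1 / (ℓ : ℝ)) ^ k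

theorem result : ∃ C : ℕ → ℝ, (∀ k : ℕ, 1 ≤ k → 0 < C k ∧ Tendsto (bhProd k) atTop (𝓝 (C k))) ∧
    ∀ t : ℝ, 1 / 2 < t → t < 1 →
    ∃ M : ℕ → ℕ, (∀ q, 0 < M q) ∧ (∀ d : ℕ, 0 < d → ∀ᶠ q : ℕ in atTop, d ∣ M q) ∧
      (∀ᶠ q : ℕ in atTop, (M q : ℝ) ≤ Real.log q) ∧
      ∀ (g : ℕ → ℝ) (K : ℝ), Monotone g → (∀ q, 0 ≤ g q) → (∀ q : ℕ, g q ≤ K * ((q : ℝ) ^ t + 1)) →
      ∀ᵐ ω ∂(Measure.infinitePi fun _ : ℕ =>
        ((volume : Measure ℝ).restrict (Set.Icc 0 1)).prod ((volume : Measure ℝ).restrict (Set.Icc 0 1))),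
        (∀ k : ℕ, 1 ≤ k → Tendsto (fun X : ℕ => (count (T M t g ω) k X : ℝ) * Real.log X ^ k / X) atTop (𝓝 (C k))) ∧
        (∀ ε : ℝ, 0 < ε → ε < 1 → ∀ᶠ X : ℕ in atTop,
          (∀ k : ℕ, 1 ≤ k → (k : ℝ) ≤ (1 - ε) * (Real.log X / Real.log (Real.log X)) →
            (X : ℝ) / Real.log X ^ ((1 + ε) * (k : ℝ)) ≤ count (T M t g ω) k X ∧
            (count (T M t g ω) k X : ℝ) ≤ (X : ℝ) / Real.log X ^ ((1 - ε) * (k : ℝ))) ∧
          (∀ p k : ℕ, 1 ≤ p → p ≤ X → (∀ i < k, ((T M t g ω)^[i] p).Prime) →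
            (k : ℝ) ≤ (1 + ε) * (Real.log X / Real.log (Real.log X)))) := by
  classical
  refine ⟨fun k => Pool.Agent.PCx.BH (k - 1), ?_, ?_⟩
  · intro k hk
    refine ⟨Pool.Agent.PCx.BH_pos _, ?_⟩
    refine (Pool.Agent.PCx.BH_tendsto (k - 1)).congr fun j => ?_
    rw [Pool.Agent.PCx.kap_PP]
    unfold bhProd
    refine Finset.prod_congr rfl fun ℓ hℓ => ?_
    rw [Finset.mem_filter] at hℓ
    rw [Pool.Agent.PCx.bet_zero hℓ.2, Nat.sub_add_cancel hk]
    have e1 : Pool.Agent.PCx.nu ℓ (k - 1) = nu ℓ k := by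
      unfold Pool.Agent.PCx.nu nu
      congr 1
      apply Finset.filter_congr
      intro v _
      rw [Nat.sub_add_cancel hk]
      simp only [Finset.mem_range]
    rw [e1]
  · intro t ht ht1
    obtain ⟨Mb, h1, h2, h3, h4⟩ := RAG.main ht ht1
    refine ⟨fun q => Mb (Nat.log 2 q), fun q => h1 _, h2, h3, ?_⟩
    intro g K hg hg0 hgK
    have hA : RAG.AdmK t (max K 1) g := by
      refine ⟨ht, ht1, le_max_right _ _, hg, hg0, fun q => (hgK q).trans ?_⟩
      exact mul_le_mul_of_nonneg_right (le_max_left _ _) (by positivity)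
    have hm : (fun _ : ℕ => ((volume : Measure ℝ).restrict (Set.Icc 0 1)).prod
        ((volume : Measure ℝ).restrict (Set.Icc 0 1))) = fun _ : ℕ => RAF.uu := by
      funext _
      unfold RAF.uu
      rw [Measure.volume_eq_prod, Measure.prod_restrict]
    have hP : (Measure.infinitePi fun _ : ℕ =>
        ((volume : Measure ℝ).restrict (Set.Icc 0 1)).prod ((volume : Measure ℝ).restrict (Set.Icc 0 1))) = RAF.Pm := by
      unfold RAF.Pm
      congr 1
    rw [hP]
    have hT : ∀ ω, T (fun q => Mb (Nat.log 2 q)) t g ω = RAG.T Mb t g ω := fun ω => rfl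
    filter_upwards [h4 (max K 1) g hA] with ω hω
    rw [hT]
    have hSE : ∀ p k : ℕ, 1 ≤ p → 1 ≤ k → (StartsExact (RAG.T Mb t g ω) p k ↔
        (∀ i < k, (RAG.ch Mb t g ω p i).Prime) ∧ ¬ (RAG.ch Mb t g ω p k).Prime) := by
      intro p k hp hk
      have h2 : RAG.ch Mb t g ω p k = (RAG.T Mb t g ω)^[k] p := rfl
      have h3 := RAG.ch_ge Mb t g ω p k
      unfold StartsExact
      constructor
      · rintro ⟨a, b, c⟩
        exact ⟨a, c⟩
      · rintro ⟨a, c⟩
        refine ⟨a, ?_, c⟩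
        rw [← h2]
        have h4 : 2 ≤ 2 ^ k := by
          calc 2 = 2 ^ 1 := by norm_num
            _ ≤ 2 ^ k := Nat.pow_le_pow_right (by norm_num) hk
        nlinarith
    have hcount : ∀ k X : ℕ, 1 ≤ k → (count (RAG.T Mb t g ω) k X : ℝ) = (((Finset.Icc 1 X).filter fun p =>
        (∀ i < k, (RAG.ch Mb t g ω p i).Prime) ∧ ¬ (RAG.ch Mb t g ω p k).Prime).card : ℝ) := by
      intro k X hk
      unfold count
      congr 2
      exact Finset.filter_congr fun p hp => hSE p k (Finset.mem_Icc.1 hp).1 hk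
    refine ⟨fun k hk => ?_, fun ε hε hε1 => ?_⟩
    · refine (hω.1 k hk).congr fun X => ?_
      rw [hcount k X hk]
    · filter_upwards [hω.2 ε hε hε1] with X hX
      refine ⟨fun k hk hk2 => ?_, fun p k hp hpX hs => ?_⟩
      · rw [hcount k X hk]
        exact hX.1 k hk hk2
      · exact hX.2 p (Finset.mem_Icc.2 ⟨hp, hpX⟩) k hs

end Pool.Agent.Results.MP_77cbc6_nt.LongestPowerPerturbation
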