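import Pool.Agent.RLC.Main

/-!
# The lengths of the chains of primes under random maps close to `q ↦ 2q + 1`

For real sequences `a`, `β` the chain of a natural number `p` is `c 0 = p`, `c (n+1) = ⌊a n * c n + β n⌋` (Q1 is the
case `a n = 2`, `β n = 1`). Let the `a n` be independent random numbers in `[1, v]`, the law of `a n` having a density
`≤ D n` with `D n = n^(o(1))`; for instance `a n` uniform in `[2, 2 + ε/log(n+3)]`, so that `a n → 2`. Let `β` be
any bounded sequence. Then almost surely, for every `ε > 0` and all large `X`: uniformly for all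
`k ≤ (1-ε) log X/log log X` the number of primes `p ≤ X` which start a chain of exact length `k` is
asymptotic to `X / ∏_{i<k} log(a 0 ⋯ a (i-1) X)`; and there are no chains of exact length `> (1+ε) log X/log log X`
starting below `X`. The primes are the true primes.
-/

namespace Pool.Agent.Results.MP_77cbc6_nt.LongestRandomChains

open MeasureTheory Filter

/-- The chain `c 0 = p`, `c (n+1) = ⌊a n * c n + β n⌋` (`0` where this is negative). -/
noncomputable def chain (a β : ℕ → ℝ) (p : ℕ) : ℕ → ℕ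
  | 0 => p
  | n + 1 => ⌊a n * (chain a β p n : ℝ) + β n⌋₊

/-- `p` starts a chain of exact length `k`: `c 0, ..., c (k-1)` are prime and `c k` is composite. -/
def StartsExact (a β : ℕ → ℝ) (p k : ℕ) : Prop :=
  (∀ i < k, (chain a β p i).Prime) ∧ 1 < chain a β p k ∧ ¬ (chain a β p k).Prime

open Classical in
/-- The number of the `p ≤ X` which start a chain of exact length `k`. -/
noncomputable def count (a β : ℕ → ℝ) (k X : ℕ) : ℕ :=
  ((Finset.Icc 1 X).filter fun p => StartsExact a β p k).card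

theorem chain_eq (a β : ℕ → ℝ) (p n : ℕ) : chain a β p n = MCC.chain a β p n := by
  induction n with
  | zero => rfl
  | succ n ih =>
    show ⌊a n * (chain a β p n : ℝ) + β n⌋₊ = ⌊a n * (MCC.chain a β p n : ℝ) + β n⌋₊
    rw [ih]

theorem starts_iff (a β : ℕ → ℝ) (p k : ℕ) : StartsExact a β p k ↔ MCC.StartsExact a β p k := by
  unfold StartsExact MCC.StartsExact
  simp only [chain_eq]

theorem result (v Γ : ℝ) (D : ℕ → ℝ) (hv : 1 ≤ v)
    (hD : ∀ δ : ℝ, 0 < δ → ∃ C : ℝ, ∀ n : ℕ, D n ≤ C * ((n : ℝ) + 1) ^ δ)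
    (μ : ℕ → Measure ℝ) [∀ n, IsProbabilityMeasure (μ n)]
    (hμ : ∀ n, ∀ s : Set ℝ, MeasurableSet s → μ n s ≤ ENNReal.ofReal (D n) * volume (s ∩ Set.Icc 1 v))
    (β : ℕ → ℝ) (hβ : ∀ n, |β n| ≤ Γ) :
    ∀ᵐ a ∂(Measure.infinitePi μ), ∀ ε : ℝ, 0 < ε → ε < 1 → ∀ᶠ X : ℕ in atTop,
      (∀ k : ℕ, 1 ≤ k → (k : ℝ) ≤ (1 - ε) * (Real.log X / Real.log (Real.log X)) →
        |(count a β k X : ℝ) / (X / ∏ i ∈ Finset.range k, Real.log ((∏ j ∈ Finset.range i, a j) * X)) - 1| ≤ ε) ∧
      (∀ p k : ℕ, 1 ≤ p → p ≤ X → StartsExact a β p k →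
        (k : ℝ) ≤ (1 + ε) * (Real.log X / Real.log (Real.log X))) := by
  classical
  have hΓ : 0 ≤ Γ := (abs_nonneg _).trans (hβ 0)
  have hS : RLC.Slow (fun n => max 1 (D n)) := by
    refine ⟨fun n => le_max_left _ _, fun δ hδ => ?_⟩
    obtain ⟨C, hC⟩ := hD δ hδ
    refine ⟨max 1 C, fun n => ?_⟩
    have h1 : (1 : ℝ) ≤ ((n : ℝ) + 1) ^ δ := Real.one_le_rpow (by linarith [(Nat.cast_nonneg n : (0 : ℝ) ≤ n)]) hδ.le
    refine max_le ?_ ((hC n).trans ?_)
    · calc (1 : ℝ) ≤ 1 * ((n : ℝ) + 1) ^ δ := by rw [one_mul]; exact h1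
        _ ≤ _ := mul_le_mul_of_nonneg_right (le_max_left _ _) (by positivity)
    · exact mul_le_mul_of_nonneg_right (le_max_right _ _) (by positivity)
  have hL : RLC.Law v (fun n => max 1 (D n)) μ := by
    refine ⟨inferInstance, fun n s hs => (hμ n s hs).trans ?_⟩
    exact mul_le_mul' (ENNReal.ofReal_le_ofReal (le_max_right _ _)) le_rfl
  filter_upwards [RLC.main hS hv hΓ μ hL β hβ] with a ha ε h0 h1
  filter_upwards [ha ε h0 h1] with X hX
  refine ⟨fun k hk hk2 => ?_, fun p k hp hpX hs => ?_⟩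
  · have h2 := hX.1 k hk hk2
    have h3 : (count a β k X : ℝ) = (((Finset.Icc 1 X).filter fun p => MCC.StartsExact a β p k).card : ℝ) := by
      unfold count
      congr 2
      exact Finset.filter_congr fun p _ => starts_iff a β p k
    rw [h3, div_div_eq_mul_div]
    exact h2
  · exact hX.2 p (Finset.mem_Icc.2 ⟨hp, hpX⟩) k ((starts_iff a β p k).1 hs)

end Pool.Agent.Results.MP_77cbc6_nt.LongestRandomChains
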