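import Mathlib
import Pool.Agent.GPM.One
import Pool.Agent.GPM.LogDen
import Pool.Agent.GPR.Bb

/-!
Chains of primes of every exact length `k` under powers of almost every multiplier. Question Q1 is about the map
`q ↦ 2 q + 1`. For every `k ≥ 1` there is `K` such that for almost every real `α > 1`, every real `b` and `0 ≤ β ≤ 1`, one of
the maps `q ↦ ⌊A^j(q) + β⌋`, `A x = α x + b`, `1 ≤ j ≤ K` (and, for every `m`, some `j` in `m, 2 m, ..., K m`) has at least
`c X / (log X)^k` starts `p ≤ X` of chains of exact length `k`, at all the scales `X = e^n` of a set of `n` of positive upper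
density. So for every `k` the real multipliers `μ` for which `q ↦ ⌊μ q + β⌋` has this property have positive density in
logarithmic measure, also in every interval `(1, 1 + ε)`.
-/

namespace Pool.Agent.Results.MP_77cbc6_nt.PowersOfMultipliers

open MeasureTheory Filter

/-- The map `q ↦ ⌊A^j(q) + β⌋`, `A^j` the `j`-th iterate of `A x = α x + b` (and `0` where this number is negative). -/
noncomputable def T (α b β : ℝ) (j q : ℕ) : ℕ := ⌊(fun x : ℝ => α * x + b)^[j] q + β⌋₊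

/-- `p` starts a chain of exact length `k` under the map `S`: the first `k` terms of the sequence
`p, S p, S (S p), ...` are primes and the next one is composite. -/
def StartsExact (S : ℕ → ℕ) (p k : ℕ) : Prop :=
  (∀ i < k, (S^[i] p).Prime) ∧ 1 < S^[k] p ∧ ¬ (S^[k] p).Prime

open Classical in
/-- The number of the `p ≤ X` which start a chain of exact length `k` under the map `S`. -/
noncomputable def count (S : ℕ → ℕ) (k X : ℕ) : ℕ :=
  ((Finset.Icc 1 X).filter fun p : ℕ => StartsExact S p k).card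

open Classical in
/-- `S` has many chains of exact length `k`: for some `c > 0` and infinitely many `N` there are at least `c N` numbers
`n < N` such that at least `c e^n / n^k` of the `p ≤ e^n` start a chain of exact length `k`. -/
def Many (S : ℕ → ℕ) (k : ℕ) : Prop :=
  ∃ c : ℝ, 0 < c ∧ ∃ᶠ N : ℕ in atTop,
    c * N ≤ (((Finset.range N).filter fun n : ℕ =>
      c * (Real.exp n / (n : ℝ) ^ k) ≤ (count S k ⌊Real.exp n⌋₊ : ℝ)).card : ℝ)

theorem countA_eq (α b β : ℝ) (j k X : ℕ) : GPM.countA α b β j k X = count (T α b β j) k X := by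
  classical
  unfold GPM.countA count
  congr 1
  ext p
  simp only [Finset.mem_filter, StartsExact]
  rfl

theorem T_zero (α β : ℝ) (j : ℕ) : T α 0 β j = fun q : ℕ => ⌊α ^ j * q + β⌋₊ := by
  funext q
  have h1 : ∀ (j : ℕ) (x : ℝ), (fun x : ℝ => α * x + 0)^[j] x = α ^ j * x := by
    intro j x
    induction j with
    | zero => simp
    | succ j ih => rw [Function.iterate_succ_apply', ih, pow_succ]; ring
  unfold T
  rw [h1]

theorem exists_K (k : ℕ) (hk : 1 ≤ k) : ∃ n : ℕ, 1 ≤ n ∧ ∀ᵐ α : ℝ, 1 < α → ∀ b β : ℝ, 0 ≤ β → β ≤ 1 →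
    ∀ m : ℕ, 1 ≤ m → ∃ j : ℕ, m ∣ j ∧ 0 < j ∧ j ≤ n * m ∧ Many (T α b β j) k := by
  classical
  rcases Nat.lt_or_ge k 2 with h | h
  · have h1 : k = 1 := by omega
    subst h1
    refine ⟨1, le_rfl, ?_⟩
    filter_upwards [GPM.one_ae] with α hα h1 b β _ _ m hm
    obtain ⟨c, hc, h2⟩ := hα h1 b β m hm
    refine ⟨m, dvd_refl m, hm, by omega, c, hc, ?_⟩
    simp_rw [countA_eq] at h2
    refine h2.mono fun N hN => hN.trans (le_of_eq ?_)
    congr!
  · obtain ⟨n, hn, hB⟩ := GPR.bb h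
    refine ⟨n, hn, ?_⟩
    have hB' : GPM.BB k n := fun μ s ε hμ hε => hB μ s ε hμ hε
    filter_upwards [GPM.finB h hn hB'] with α hα h1 b β hβ0 hβ1 m hm
    obtain ⟨j, c, hc, hj1, hj2, hj3, h2⟩ := hα h1 b β hβ0 hβ1 m hm
    refine ⟨j, hj1, hj2, hj3, c, hc, ?_⟩
    simp_rw [countA_eq] at h2
    refine h2.mono fun N hN => hN.trans (le_of_eq ?_)
    congr!

theorem result : ∃ K : ℕ → ℕ,
    (∀ᵐ α : ℝ, 1 < α → ∀ k : ℕ, 1 ≤ k → ∀ b β : ℝ, 0 ≤ β → β ≤ 1 → ∀ m : ℕ, 1 ≤ m →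
      ∃ j : ℕ, m ∣ j ∧ 0 < j ∧ j ≤ K k * m ∧ Many (T α b β j) k) ∧
    (∀ k : ℕ, 1 ≤ k → 1 ≤ K k ∧ ∀ β : ℝ, 0 ≤ β → β ≤ 1 → ∀ t : ℝ, 0 < t →
      ENNReal.ofReal (t / (K k : ℝ) ^ 2) ≤
        volume {x : ℝ | 0 < x ∧ x < t ∧ Many (fun q : ℕ => ⌊Real.exp x * q + β⌋₊) k}) := by
  choose! K hK1 hK2 using exists_K
  refine ⟨K, ?_, fun k hk => ⟨hK1 k hk, ?_⟩⟩
  · have h1 : ∀ k : ℕ, ∀ᵐ α : ℝ, 1 ≤ k → 1 < α → ∀ b β : ℝ, 0 ≤ β → β ≤ 1 →
        ∀ m : ℕ, 1 ≤ m → ∃ j : ℕ, m ∣ j ∧ 0 < j ∧ j ≤ K k * m ∧ Many (T α b β j) k := by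
      intro k
      by_cases hk : 1 ≤ k
      · filter_upwards [hK2 k hk] with α hα _
        exact hα
      · exact Eventually.of_forall fun α h => absurd h hk
    rw [← ae_all_iff] at h1
    filter_upwards [h1] with α hα h2 k hk
    exact hα k hk h2
  · intro β hβ0 hβ1 t ht
    refine GPM.log_den (G := fun μ => Many (fun q : ℕ => ⌊μ * q + β⌋₊) k) (hK1 k hk) ?_ ht
    filter_upwards [hK2 k hk] with α hα h1
    obtain ⟨j, -, hj2, hj3, h2⟩ := hα h1 0 β hβ0 hβ1 1 le_rfl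
    rw [T_zero] at h2
    exact ⟨j, hj2, by omega, h2⟩

end Pool.Agent.Results.MP_77cbc6_nt.PowersOfMultipliers
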