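import Mathlib
import Pool.Agent.HLA.FinA
import Pool.Agent.SMD.DenQ4

/-!
Chains of primes of exact length `1, 2, 3, 4` under almost every single map `q ↦ ⌊α q + β⌋`. Question Q1 is about the
map `q ↦ 2 q + 1`, that is `α = 2`, `β = 1`. For almost every real `α > 1` and every real `β` the number of the `p ≤ X`
which start a chain of exact length `k` is asymptotic to `X / (log X)^k` for `k = 1, 2, 3`, and for `k = 4` it is at least
`c X / (log X)^4` at all the scales `X = e^n` of a set of `n` of positive upper density.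
-/

namespace Pool.Agent.Results.MP_77cbc6_nt.SingleMultiplierA

open MeasureTheory Filter

/-- The map `q ↦ ⌊α q + β⌋` (and `0` where this number is negative). -/
noncomputable def T (α β : ℝ) (q : ℕ) : ℕ := ⌊α * q + β⌋₊

/-- `p` starts a chain of exact length `k` under the map `T α β`: the first `k` terms of the sequence
`p, T p, T (T p), ...` are primes and the next one is composite. -/
def StartsExact (α β : ℝ) (p k : ℕ) : Prop :=
  (∀ i < k, ((T α β)^[i] p).Prime) ∧ 1 < (T α β)^[k] p ∧ ¬ ((T α β)^[k] p).Prime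

open Classical in
/-- The number of the `p ≤ X` which start a chain of exact length `k` under the map `T α β`. -/
noncomputable def count (α β : ℝ) (k X : ℕ) : ℕ :=
  ((Finset.Icc 1 X).filter fun p : ℕ => StartsExact α β p k).card

open Classical in
theorem result : ∀ᵐ α : ℝ, 1 < α →
    (∀ β : ℝ, ∀ k : ℕ, 1 ≤ k → k ≤ 3 →
      Tendsto (fun X : ℕ => (count α β k X : ℝ) * Real.log X ^ k / X) atTop (nhds 1)) ∧
    ∃ c : ℝ, 0 < c ∧ ∀ β : ℝ, ∃ᶠ N : ℕ in atTop,
      c * N ≤ (((Finset.range N).filter fun n : ℕ =>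
        c * (Real.exp n / (n : ℝ) ^ 4) ≤ (count α β 4 ⌊Real.exp n⌋₊ : ℝ)).card : ℝ) := by
  filter_upwards [HLA.finA, SMD.final4d] with α h1 h2 h
  refine ⟨fun β k hk hk3 => h1 h β k hk hk3, ?_⟩
  exact h2 h

end Pool.Agent.Results.MP_77cbc6_nt.SingleMultiplierA
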